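import Pool.Agent.Y789.OP.Prod

set_option autoImplicit false

/-!
De Medts and Tarnauceanu ask whether equality of the sum of o(x) / phi(o(x)) over a group of
order n and over the cyclic group of order n forces the group to be nilpotent. We prove this for
all groups which have a solvable normal subgroup such that the elements of the quotient whose
order is divisible by several primes are covered by few conjugates of solvable subgroups, in
particular for all solvable groups.
-/

namespace Pool.Agent.Results.MP_a3a3f5_al.EqualityNilpotent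

open Finset

theorem result :
    -- (1) solvable groups, and all positive exponents
    (∀ (G : Type) [Group G] [Fintype G], Group.IsSolvable G →
      ∀ (C : Type) [Group C] [Fintype C] [IsCyclic C], Fintype.card C = Fintype.card G →
        ∀ s : ℝ, 0 < s →
          ∑ x : G, ((orderOf x : ℝ) / (Nat.totient (orderOf x) : ℝ)) ^ s =
            ∑ y : C, ((orderOf y : ℝ) / (Nat.totient (orderOf y) : ℝ)) ^ s →
          Group.IsNilpotent G) ∧
    -- (2) groups with a solvable normal subgroup `N` and a covering condition on `G ⧸ N`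
    (∀ (G : Type) [Group G] [Fintype G] (N : Subgroup G) [N.Normal], Group.IsSolvable N →
      (∀ T : Finset ℕ, (∀ q ∈ T, q.Prime) → 2 ≤ #T →
        ∃ (k : ℕ) (A : Fin k → Subgroup (G ⧸ N)), (∀ i, Group.IsSolvable (A i)) ∧
          ∑ i, (Nat.card (A i) : ℝ) /
            (Nat.card (Subgroup.normalizer (A i : Set (G ⧸ N))) : ℝ) ≤ 1 ∧
          ∀ x : G ⧸ N, (∀ q ∈ T, q ∣ orderOf x) →
            ∃ (i : Fin k) (g : G ⧸ N), g * x * g⁻¹ ∈ A i) →
      ∀ (C : Type) [Group C] [Fintype C] [IsCyclic C], Fintype.card C = Fintype.card G →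
        ∀ s : ℝ, 0 < s →
          ∑ x : G, ((orderOf x : ℝ) / (Nat.totient (orderOf x) : ℝ)) ^ s =
            ∑ y : C, ((orderOf y : ℝ) / (Nat.totient (orderOf y) : ℝ)) ^ s →
          Group.IsNilpotent G) ∧
    -- (3) all groups in which, for every set of primes, at most as many elements as in the
    -- cyclic group have order divisible by all primes of the set
    (∀ (G : Type) [Group G] [Fintype G] (C : Type) [Group C] [Fintype C] [IsCyclic C],
      Fintype.card C = Fintype.card G →
      (∀ T : Finset ℕ, (∀ q ∈ T, q.Prime) →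
        Nat.card {x : G // ∀ q ∈ T, q ∣ orderOf x} ≤
          Nat.card {y : C // ∀ q ∈ T, q ∣ orderOf y}) →
        ∀ s : ℝ, 0 < s →
          ∑ x : G, ((orderOf x : ℝ) / (Nat.totient (orderOf x) : ℝ)) ^ s =
            ∑ y : C, ((orderOf y : ℝ) / (Nat.totient (orderOf y) : ℝ)) ^ s →
          Group.IsNilpotent G) := by
  have key : ∀ (G : Type) [Group G] [Fintype G] (C : Type) [Group C] [Fintype C] [IsCyclic C],
      Fintype.card C = Fintype.card G → Pool.Y789.OP.Prop1 G → ∀ s : ℝ, 0 < s →
          ∑ x : G, ((orderOf x : ℝ) / (Nat.totient (orderOf x) : ℝ)) ^ s =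
            ∑ y : C, ((orderOf y : ℝ) / (Nat.totient (orderOf y) : ℝ)) ^ s →
          Group.IsNilpotent G := by
    intro G _ _ C _ _ _ hc hG s hs heq
    have hc' : Nat.card C = Nat.card G := by
      rw [Nat.card_eq_fintype_card, Nat.card_eq_fintype_card, hc]
    have h2 : ∀ n : ℕ, n ≠ 0 → ((n : ℝ) / (Nat.totient n : ℝ)) ^ s =
        ∏ q ∈ n.primeFactors, (1 + (((q : ℝ) / ((q : ℝ) - 1)) ^ s - 1)) :=
      fun n hn => Pool.Y789.OP.ratio_rpow n hn s
    rw [Finset.sum_congr rfl (fun (x : G) _ => h2 (orderOf x) (orderOf_pos x).ne'),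
      Finset.sum_congr rfl (fun (x : C) _ => h2 (orderOf x) (orderOf_pos x).ne')] at heq
    exact Pool.Y789.OP.nilpotent_of_AT_eq hc'
      (Pool.Y789.OP.AT_eq_of_sum_eq hc' hG _ (fun q hq => Pool.Y789.OP.weight_pos hs hq) heq)
  refine ⟨?_, ?_, ?_⟩
  · intro G _ _ hG C _ _ _ hc s hs heq
    exact key G C hc (Pool.Y789.OP.prop1_of_solvable G hG) s hs heq
  · intro G _ _ N _ hN hcov C _ _ _ hc s hs heq
    refine key G C hc (Pool.Y789.OP.lift_solvable _ G N rfl hN ?_) s hs heq
    intro T hT
    by_cases h2 : 2 ≤ #T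
    · obtain ⟨k, A, hA, hsum, hx⟩ := hcov T hT h2
      exact Pool.Y789.OP.domT_of_cover T hT A
        (fun i => Pool.Y789.OP.prop1_of_solvable (A i) (hA i) T hT) hsum hx
    · exact Pool.Y789.OP.domT_small T hT (by omega)
  · intro G _ _ C _ _ _ hc h s hs heq
    have hc' : Nat.card C = Nat.card G := by
      rw [Nat.card_eq_fintype_card, Nat.card_eq_fintype_card, hc]
    exact key G C hc (Pool.Y789.OP.prop1_of_AT_le hc' (fun T hT => h T hT)) s hs heq

end Pool.Agent.Results.MP_a3a3f5_al.EqualityNilpotent
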