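import Pool.Agent.Y536.OP.Cls4

set_option autoImplicit false

/-!
# Groups for which the sum of `o(x) / φ(o(x))` is the one of a cyclic group

Let `G` be a finite group with normal subgroups `1 = N 0 ≤ N 1 ≤ … ≤ N n = G` such that the Sylow
`p`-subgroups of every factor `N (i + 1) / N i` are abelian, for all odd primes `p`. For instance,
`G` may be solvable, or the order of `G` may not be divisible by the cube of an odd prime; by
refining to a chief series, the condition says that the Sylow `p`-subgroups of all composition
factors of `G` are abelian, for all odd `p` (there is no condition for `p = 2`). Let `0 < r ≤ 1`. If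
the sum of `(o(x) / φ(o(x))) ^ r` over `G` equals the same sum over the cyclic group of the same
order, then `G` is nilpotent. For `r = 1` this is the question of De Medts and Tărnăuceanu.

The proof follows the cases of equality in the inequality between these sums: equality for `G` gives
a prime `p` for which the elements of order prime to `p` form a subgroup `K`, equality for `K`, and
that all the elements of order a power of `p` centralize `K`; hence `G` is the direct product of the
nilpotent group `K` and a `p`-group.
-/

namespace Pool.Agent.Results.MP_a3a3f5_al.OddSylowAbelian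

/-- Let the finite group `G` have normal subgroups `1 = N 0 ≤ N 1 ≤ … ≤ N n = G` such that the Sylow
`p`-subgroups of the factors `N (i + 1) / N i` are abelian, for all odd primes `p`, and let `C` be a
cyclic group of the same order. If the sums of `o(x) / φ(o(x))` over `G` and over `C` are equal,
then `G` is nilpotent; the same holds for the sums of the `r`-th powers, `0 < r ≤ 1`. -/
theorem result (G : Type) [Group G] [Fintype G] (n : ℕ) (N : ℕ → Subgroup G)
    [hN : ∀ i, (N i).Normal] (h0 : N 0 = ⊥) (hn : N n = ⊤) (hle : ∀ i, N i ≤ N (i + 1))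
    (hab : ∀ i < n, ∀ p : ℕ, p.Prime → p ≠ 2 →
      ∀ P : Sylow p (N (i + 1) ⧸ (N i).subgroupOf (N (i + 1))), ∀ x ∈ P, ∀ y ∈ P, x * y = y * x)
    (C : Type) [Group C] [Fintype C] [IsCyclic C] (hC : Fintype.card C = Fintype.card G) :
    (∑ x : G, ((orderOf x : ℚ) / (Nat.totient (orderOf x) : ℚ)) =
      ∑ x : C, ((orderOf x : ℚ) / (Nat.totient (orderOf x) : ℚ)) → Group.IsNilpotent G) ∧
    ∀ r : ℝ, 0 < r → r ≤ 1 →
      ∑ x : G, ((orderOf x : ℝ) / (Nat.totient (orderOf x) : ℝ)) ^ r =
        ∑ x : C, ((orderOf x : ℝ) / (Nat.totient (orderOf x) : ℝ)) ^ r → Group.IsNilpotent G := by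
  have hcomm : ∀ x y : C, x * y = y * x := by
    let _ : CommGroup C := IsCyclic.commGroup
    exact fun x y => mul_comm x y
  have hc : Nat.card G = Nat.card C := by
    rw [Nat.card_eq_fintype_card, Nat.card_eq_fintype_card, hC]
  have h := fun (r : ℝ) (hr : 0 < r) (hr1 : r ≤ 1) =>
    (Pool.Agent.Y536.OP.final4 G n N hN h0 hn hle hab C hcomm hc r hr hr1).2
  refine ⟨fun he => h 1 one_pos le_rfl ?_, h⟩
  simp only [Real.rpow_one]
  have h1 := congrArg (Rat.cast : ℚ → ℝ) he
  push_cast at h1
  exact h1

end Pool.Agent.Results.MP_a3a3f5_al.OddSylowAbelian
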