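import Pool.Agent.Y536.OQ.Fin

set_option autoImplicit false

/-!
# No equality: normal series with solvable and alternating factors

Let `G` be a finite group with normal subgroups `1 = M 0 ≤ M 1 ≤ … ≤ M n` such that every factor
`M (i + 1) / M i` is solvable or an alternating group `A_m`, `m ≥ 5`, on which `G` acts through
`S_m`, and `G / M n` is a direct product of groups of the following kinds: (a) symmetric and
alternating groups of degree at least `5`; (b) perfect groups `H ≠ 1` such that for every odd prime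
`p` the Sylow `p`-subgroups of `H` are abelian or `H` has at least `(p + 1) / 2 * |H| / |H|_p`
elements of order prime to `p`; (c) groups with a normal series whose factors have abelian Sylow
`p`-subgroups for all odd `p`. Suppose that an alternating group occurs among the
`M (i + 1) / M i` or a group of the kind (a) or (b) among the factors of `G / M n`.
Then the sum of `o(x) / φ(o(x))` over `G` is different from the same sum over the cyclic group of
the same order, in accordance with the question of De Medts and Tărnăuceanu, as `G` is not nilpotent;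
and similarly for the sums of the powers `(o(x) / φ(o(x))) ^ r`, `0 < r ≤ 1`.
-/

namespace Pool.Agent.Results.MP_a3a3f5_al.SymmetricFactors

/-- Here `A ≤ B` are normal subgroups of `G`. The group `B / A` is isomorphic to the alternating
group `A_m` for some `m ≥ 5`, and the elements of `G` act on it, by conjugation, as elements of
`S_m` (which is automatic for `m ≠ 6`): there is a homomorphism from `G` to `S_m` which maps `B`
onto `A_m` and whose kernel meets `B` in `A`. -/
def AltFactor {G : Type} [Group G] (A B : Subgroup G) : Prop :=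
  ∃ m : ℕ, 5 ≤ m ∧ ∃ f : G →* Equiv.Perm (Fin m), B ⊓ f.ker = A ∧ B.map f = alternatingGroup (Fin m)

/-- `H` has normal subgroups `1 = N 0 ≤ N 1 ≤ … ≤ N n = H` such that the Sylow `p`-subgroups of the
factors `N (i + 1) / N i` are abelian, for all odd primes `p` (for instance, `H` is solvable, or the
order of `H` is not divisible by the cube of an odd prime). -/
def OddSylowAbelian (H : Type) [Group H] : Prop :=
  ∃ (n : ℕ) (N : ℕ → Subgroup H) (_ : ∀ i, (N i).Normal), N 0 = ⊥ ∧ N n = ⊤ ∧
    (∀ i, N i ≤ N (i + 1)) ∧ ∀ i < n, ∀ p : ℕ, p.Prime → p ≠ 2 →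
      ∀ P : Sylow p (N (i + 1) ⧸ (N i).subgroupOf (N (i + 1))), ∀ x ∈ P, ∀ y ∈ P, x * y = y * x

/-- `H` is isomorphic to the alternating group `A_m` or to the symmetric group `S_m` (the subgroups
of `S_m` which contain `A_m`), for some `m ≥ 5`. -/
def SymOrAlt (H : Type) [Group H] : Prop :=
  ∃ m : ℕ, 5 ≤ m ∧ ∃ S : Subgroup (Equiv.Perm (Fin m)), alternatingGroup (Fin m) ≤ S ∧
    Nonempty (H ≃* S)

/-- `H` is nontrivial and perfect (for instance, a nonabelian simple group), and for every odd prime
`p` the Sylow `p`-subgroups of `H` are abelian, or the number of elements of `H` of order not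
divisible by `p` is at least `(p + 1) / 2` times the part of `|H|` prime to `p`. -/
def PerfectMany (H : Type) [Group H] : Prop :=
  Nontrivial H ∧ Group.IsPerfect H ∧ ∀ p : ℕ, p.Prime → p ≠ 2 →
    (∀ P : Sylow p H, ∀ x ∈ P, ∀ y ∈ P, x * y = y * x) ∨
    (p + 1) * Nat.card H ≤
      2 * p ^ (Nat.card H).factorization p * Nat.card {x : H // ¬ p ∣ orderOf x}

open Pool.Agent.Y536.OP.SA in
theorem aux (G : Type) [Group G] [Fintype G] (n : ℕ) (M : ℕ → Subgroup G) [∀ i, (M i).Normal]
    (h0 : M 0 = ⊥) (hle : ∀ i, M i ≤ M (i + 1))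
    (hM : ∀ i < n, Group.IsSolvable ((M (i + 1)).map (QuotientGroup.mk' (M i))) ∨
      AltFactor (M i) (M (i + 1)))
    (k : ℕ) (H : Fin k → Type) [∀ i, Group (H i)] [∀ i, Finite (H i)]
    (hH : ∀ i, OddSylowAbelian (H i) ∨ SymOrAlt (H i) ∨ PerfectMany (H i))
    (e : G ⧸ M n ≃* ∀ i, H i)
    (hS : (∃ i < n, AltFactor (M i) (M (i + 1))) ∨ ∃ i, SymOrAlt (H i) ∨ PerfectMany (H i)) :
    SGood G := by
  have hgood : ∀ i, Good (H i) := by
    intro i
    rcases hH i with ⟨n, N, hN, h0, hn, hle, ha⟩ | ⟨m, hm, S, hS, ⟨f⟩⟩ | ⟨_, _, h⟩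
    · exact good_of_series n N hN h0 hn hle ha
    · exact (sgood_of_equiv hm S hS f).2
    · exact (perf h).1
  refine Pool.Agent.Y536.OQ.final M h0 hle n hM k H hgood e ?_
  rcases hS with h | ⟨i, ⟨m, hm, S, hS, ⟨f⟩⟩ | ⟨_, _, h⟩⟩
  · exact Or.inl h
  · exact Or.inr ⟨i, (sgood_of_equiv hm S hS f).1⟩
  · exact Or.inr ⟨i, (perf h).2⟩

/-- Let `G` be a finite group with normal subgroups `1 = M 0 ≤ M 1 ≤ … ≤ M n` such that every factor
`M (i + 1) / M i` is solvable or satisfies `AltFactor`, and `G / M n` is isomorphic to a direct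
product of groups `H i` which satisfy `SymOrAlt`, `PerfectMany` or `OddSylowAbelian`. Suppose that
one of the factors `M (i + 1) / M i` satisfies `AltFactor` or one of the `H i` satisfies `SymOrAlt`
or `PerfectMany`. Let `C` be a cyclic group of the same order as `G`. Then `∑ o(x) / φ(o(x))` over
`G` is different from `∑ o(x) / φ(o(x))` over `C`; the same holds for the sums of the
`r`-th powers, `0 < r ≤ 1`. -/
theorem result (G : Type) [Group G] [Fintype G] (n : ℕ) (M : ℕ → Subgroup G) [∀ i, (M i).Normal]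
    (h0 : M 0 = ⊥) (hle : ∀ i, M i ≤ M (i + 1))
    (hM : ∀ i < n, Group.IsSolvable ((M (i + 1)).map (QuotientGroup.mk' (M i))) ∨
      AltFactor (M i) (M (i + 1)))
    (k : ℕ) (H : Fin k → Type) [∀ i, Group (H i)] [∀ i, Finite (H i)]
    (hH : ∀ i, OddSylowAbelian (H i) ∨ SymOrAlt (H i) ∨ PerfectMany (H i))
    (e : G ⧸ M n ≃* ∀ i, H i)
    (hS : (∃ i < n, AltFactor (M i) (M (i + 1))) ∨ ∃ i, SymOrAlt (H i) ∨ PerfectMany (H i))
    (C : Type) [Group C] [Fintype C] [IsCyclic C] (hC : Fintype.card C = Fintype.card G) :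
    (∑ x : G, ((orderOf x : ℚ) / (Nat.totient (orderOf x) : ℚ)) ≠
      ∑ x : C, ((orderOf x : ℚ) / (Nat.totient (orderOf x) : ℚ))) ∧
    ∀ r : ℝ, 0 < r → r ≤ 1 →
      ∑ x : G, ((orderOf x : ℝ) / (Nat.totient (orderOf x) : ℝ)) ^ r ≠
        ∑ x : C, ((orderOf x : ℝ) / (Nat.totient (orderOf x) : ℝ)) ^ r := by
  have hcomm : ∀ x y : C, x * y = y * x := by
    let _ : CommGroup C := IsCyclic.commGroup
    exact fun x y => mul_comm x y
  have hc : Nat.card G = Nat.card C := by
    rw [Nat.card_eq_fintype_card, Nat.card_eq_fintype_card, hC]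
  have h := fun (r : ℝ) (hr : 0 < r) (hr1 : r ≤ 1) =>
    (Pool.Agent.Y536.OP.SA.sgood_final G (aux G n M h0 hle hM k H hH e hS) C hcomm hc r hr hr1).ne
  refine ⟨fun he => ?_, h⟩
  apply h 1 one_pos le_rfl
  simp only [Real.rpow_one]
  have h1 := congrArg (Rat.cast : ℚ → ℝ) he
  push_cast at h1
  exact h1

end Pool.Agent.Results.MP_a3a3f5_al.SymmetricFactors
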